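import Pool.Agent.H.MP_6ac155.A

set_option autoImplicit false
open scoped Topology

namespace Pool.Agent.H.MP_6ac155

variable {E Z : Type*} [NormedAddCommGroup E] [NormedSpace ℝ E] [NormedAddCommGroup Z]
  [NormedSpace ℝ Z]

def LL (B : E →ₗ[ℝ] Z →ₗ[ℝ] ℝ) : Prop := ∀ (z : Z) (x : E), ‖x‖ = 1 → ∀ δ ε : ℝ, 0 < δ → 0 < ε →
  ∃ y, ‖y‖ ≤ 1 ∧ B x z - δ < B y z ∧ 2 - ε < ‖x - y‖

def BP (B : E →ₗ[ℝ] Z →ₗ[ℝ] ℝ) : Prop := ∀ (x : E) (z : Z), B x z = 1 → ∀ γ : ℝ, 0 < γ →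
  ∃ y, ‖y‖ ≤ 1 ∧ 2 - γ < ‖y - B y z • x‖

theorem l1 {B : E →ₗ[ℝ] Z →ₗ[ℝ] ℝ} (hb : ∀ x z, |B x z| ≤ ‖x‖ * ‖z‖) (h : LL B) : BP B := by
  intro x z hxz γ hγ
  have hx : 0 < ‖x‖ := norm_pos_iff.2 (by rintro rfl; simp at hxz)
  have h1 : ‖‖x‖⁻¹ • x‖ = 1 := by rw [norm_smul, norm_inv, norm_norm, inv_mul_cancel₀ hx.ne']
  set K := ‖x‖ * ‖z‖ + 2 with hK
  have hK0 : 0 < K := by positivity
  obtain ⟨y, hy, h2, h3⟩ := h (‖x‖ • z) _ h1 (γ / K) (γ / K) (by positivity) (by positivity)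
  refine ⟨y, hy, ?_⟩
  simp only [map_smul, LinearMap.smul_apply, smul_eq_mul, hxz, mul_one,
    mul_inv_cancel₀ hx.ne'] at h2
  set s := ‖x‖ * B y z with hs
  have e : B y z • x = s • ‖x‖⁻¹ • x := by
    rw [smul_smul, hs]
    congr 1
    field_simp
  rw [e]
  set u := ‖x‖⁻¹ • x
  have hsK : s ≤ ‖x‖ * ‖z‖ := by
    have := (le_abs_self _).trans (hb y z)
    have h4 : ‖y‖ * ‖z‖ ≤ ‖z‖ := mul_le_of_le_one_left (norm_nonneg _) hy
    rw [hs]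
    gcongr
    linarith
  have eK : γ / K * K = γ := div_mul_cancel₀ _ hK0.ne'
  have hd : 0 < γ / K := by positivity
  have hn : 0 ≤ ‖x‖ * ‖z‖ := by positivity
  rcases le_total 1 s with h4 | h4
  · have e2 : s • (u - y) = (1 - s) • y - (y - s • u) := by module
    have h5 := norm_sub_le ((1 - s) • y) (y - s • u)
    rw [← e2, norm_smul, norm_smul, Real.norm_of_nonneg (by linarith), Real.norm_eq_abs,
      abs_of_nonpos (by linarith)] at h5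
    have h6 : s * (2 - γ / K) ≤ s * ‖u - y‖ := by gcongr
    nlinarith
  · have e2 : u - y = (1 - s) • u - (y - s • u) := by module
    have h5 := norm_sub_le ((1 - s) • u) (y - s • u)
    rw [← e2, norm_smul, h1, Real.norm_of_nonneg (by linarith)] at h5
    nlinarith

theorem l2 {B : E →ₗ[ℝ] Z →ₗ[ℝ] ℝ} (hb : ∀ x z, |B x z| ≤ ‖x‖ * ‖z‖)
    (hn : ∀ x (γ : ℝ), 0 < γ → ∃ z, ‖z‖ ≤ 1 ∧ ‖x‖ - γ < B x z) (h : BP B) : LL B := by
  intro z x hx δ ε hδ hε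
  have hz := norm_nonneg z
  obtain ⟨l, hl, hl1, hl2⟩ : ∃ l : ℝ, 0 < l ∧ l * ‖z‖ ≤ 1 / 8 ∧ l * ‖z‖ ≤ ε / 16 := by
    refine ⟨min (1 / 8) (ε / 16) / (‖z‖ + 1), by positivity, ?_, ?_⟩ <;>
      rw [div_mul_eq_mul_div, div_le_iff₀ (by positivity)]
    · nlinarith [min_le_left (1 / 8 : ℝ) (ε / 16), lt_min (by norm_num : (0 : ℝ) < 1 / 8)
        (by positivity : 0 < ε / 16)]
    · nlinarith [min_le_right (1 / 8 : ℝ) (ε / 16), lt_min (by norm_num : (0 : ℝ) < 1 / 8)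
        (by positivity : 0 < ε / 16)]
  obtain ⟨γ, hγ, g1, g2, g3⟩ : ∃ γ : ℝ, 0 < γ ∧ γ ≤ 1 / 8 ∧ γ ≤ ε / 16 ∧ γ ≤ l * δ / 4 :=
    ⟨min (1 / 8) (min (ε / 16) (l * δ / 4)), by positivity, min_le_left _ _,
      (min_le_right _ _).trans (min_le_left _ _), (min_le_right _ _).trans (min_le_right _ _)⟩
  obtain ⟨v, hv, hxv⟩ := hn x γ hγ
  have b : ∀ y : E, ‖y‖ ≤ 1 → |l * B y z| ≤ l * ‖z‖ ∧ |B y v| ≤ 1 := fun y hy => by
    constructor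
    · rw [abs_mul, abs_of_pos hl]
      gcongr
      exact (hb y z).trans (mul_le_of_le_one_left hz hy)
    · exact (hb y v).trans (mul_le_one₀ hy (norm_nonneg _) hv)
  obtain ⟨b1, b2⟩ := b x hx.le
  rw [abs_le] at b1 b2
  rw [hx] at hxv
  set c := l * B x z + B x v with hc
  have c1 : 3 / 4 ≤ c := by linarith [b1.1]
  have c2 : c ≤ 9 / 8 := by linarith [b1.2]
  have hc0 : 0 < c := by linarith
  have key : ∃ y, ‖y‖ ≤ 1 ∧ 0 ≤ l * B y z + B y v ∧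
      2 - γ < ‖y - (c⁻¹ * (l * B y z + B y v)) • x‖ := by
    obtain ⟨y, hy, h1⟩ := h x (c⁻¹ • (l • z + v)) (by
      simp only [map_smul, map_add, smul_eq_mul]
      exact inv_mul_cancel₀ hc0.ne') γ hγ
    simp only [map_smul, map_add, smul_eq_mul] at h1
    rcases le_total 0 (l * B y z + B y v) with h2 | h2
    · exact ⟨y, hy, h2, h1⟩
    · refine ⟨-y, by rwa [norm_neg], ?_, ?_⟩
      · simp only [map_neg, LinearMap.neg_apply]
        linarith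
      · rw [← norm_neg]
        refine h1.trans_le (le_of_eq (congrArg norm ?_))
        simp only [map_neg, LinearMap.neg_apply]
        module
  obtain ⟨y, hy, h1, h2⟩ := key
  obtain ⟨b3, b4⟩ := b y hy
  rw [abs_le] at b3 b4
  set s := c⁻¹ * (l * B y z + B y v) with hs
  have hsc : s * c = l * B y z + B y v := by rw [hs]; field_simp
  have hs0 : 0 ≤ s := by positivity
  have h3 : 1 - γ < s := by
    have := norm_sub_le y (s • x)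
    rw [norm_smul, hx, Real.norm_of_nonneg hs0] at this
    linarith
  have h4 : s ≤ 1 + ε / 2 := by
    by_contra h5
    push Not at h5
    have : (1 + ε / 2) * c < s * c := by gcongr
    nlinarith [b1.1, b3.2]
  refine ⟨y, hy, ?_, ?_⟩
  · have : (1 - γ) * c < s * c := by gcongr
    have h5 : l * (B x z - δ) < l * B y z := by nlinarith [mul_pos hl hδ]
    exact lt_of_mul_lt_mul_left h5 hl.le
  · have e : y - s • x = (1 - s) • x - (x - y) := by module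
    have h5 := norm_sub_le ((1 - s) • x) (x - y)
    rw [← e, norm_smul, hx, mul_one, Real.norm_eq_abs] at h5
    have : |1 - s| ≤ ε / 2 := abs_le.2 ⟨by linarith, by linarith⟩
    linarith

theorem l3 {B : E →ₗ[ℝ] Z →ₗ[ℝ] ℝ} (hb : ∀ x z, |B x z| ≤ ‖x‖ * ‖z‖)
    (hn : ∀ x (γ : ℝ), 0 < γ → ∃ z, ‖z‖ ≤ 1 ∧ ‖x‖ - γ < B x z) (h : BP B) : BP B.flip := by
  intro z x hxz γ hγ
  obtain ⟨y, hy, h1⟩ := h x z hxz (γ / 2) (by positivity)
  obtain ⟨v, hv, h2⟩ := hn (y - B y z • x) (γ / 2) (by positivity)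
  refine ⟨v, hv, ?_⟩
  have h3 := (le_abs_self _).trans (hb y (v - B x v • z))
  have h4 := mul_le_of_le_one_left (norm_nonneg (v - B x v • z)) hy
  simp only [map_sub, map_smul, LinearMap.sub_apply, LinearMap.smul_apply, smul_eq_mul,
    LinearMap.flip_apply] at h2 h3 ⊢
  linarith

theorem nb {α ι : Type*} (Φ : α → ι → ℝ) {U : Set α}
    (hU : IsOpen[TopologicalSpace.induced Φ Pi.topologicalSpace] U) {x : α} (hx : x ∈ U) :
    ∃ (I : Finset ι) (δ : ℝ), 0 < δ ∧ ∀ y, (∀ i ∈ I, |Φ y i - Φ x i| < δ) → y ∈ U := by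
  obtain ⟨W, hW, rfl⟩ := (isOpen_induced_iff (f := Φ)).1 hU
  obtain ⟨I, u, h1, h2⟩ := isOpen_pi_iff.1 hW _ hx
  have : ∀ i, ∃ δ : ℝ, 0 < δ ∧ (i ∈ I → Metric.ball (Φ x i) δ ⊆ u i) := fun i => by
    by_cases hi : i ∈ I
    · obtain ⟨δ, g1, g2⟩ := Metric.isOpen_iff.1 (h1 i hi).1 _ (h1 i hi).2
      exact ⟨δ, g1, fun _ => g2⟩
    · exact ⟨1, one_pos, fun h => absurd h hi⟩
  choose d hd1 hd2 using this
  obtain ⟨δ, g1, g2⟩ : ∃ δ : ℝ, 0 < δ ∧ ∀ i ∈ I, δ ≤ d i := by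
    rcases I.eq_empty_or_nonempty with rfl | hI
    · exact ⟨1, one_pos, by simp⟩
    · obtain ⟨i, -, hi⟩ := I.exists_min_image d hI
      exact ⟨d i, hd1 i, hi⟩
  refine ⟨I, δ, g1, fun y hy => h2 fun i hi => hd2 i hi ?_⟩
  rw [Metric.mem_ball, Real.dist_eq]
  exact (hy i hi).trans_le (g2 i hi)

theorem eqv {B : E →ₗ[ℝ] Z →ₗ[ℝ] ℝ} (hb : ∀ x z, |B x z| ≤ ‖x‖ * ‖z‖) : LL B ↔
    ∀ U : Set E, IsOpen[TopologicalSpace.induced (fun x z => B x z) Pi.topologicalSpace] U →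
      ∀ x, ‖x‖ = 1 → x ∈ U → ∀ ε : ℝ, 0 < ε → ∃ y, ‖y‖ ≤ 1 ∧ y ∈ U ∧ 2 - ε < ‖x - y‖ := by
  constructor
  · intro h U hU x hx hxU ε hε
    obtain ⟨I, δ, hδ, hI⟩ := nb _ hU hxU
    let T : Z →ₗ[ℝ] E →L[ℝ] ℝ := (B.flip.mkContinuous₂ 1 fun z x => by
      rw [one_mul, mul_comm]
      exact hb x z : Z →L[ℝ] E →L[ℝ] ℝ)
    have hT : ∀ z x, T z x = B x z := fun _ _ => rfl
    obtain ⟨y, h1, h2, h3⟩ := fin (LinearMap.range T) (by
      rintro _ ⟨z, rfl⟩ x hx δ ε hδ hε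
      exact h z x hx δ ε hδ hε) (fun i : I => T i.1) (fun i => ⟨_, rfl⟩) hx hδ ε hε
    refine ⟨y, h1, hI y fun i hi => ?_, h3⟩
    have := h2 ⟨i, hi⟩
    rwa [map_sub, hT, hT] at this
  · intro h z x hx δ ε hδ hε
    exact h {y | B x z - δ < B y z} (isOpen_induced (f := fun x z => B x z)
      (isOpen_lt (continuous_const (y := B x z - δ)) (continuous_apply z))) x hx (by simpa using hδ) ε hε

theorem dual : LL (topDualPairing ℝ E).flip ↔ LL (topDualPairing ℝ E) := by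
  have b1 : ∀ (f : StrongDual ℝ E) (x : E), |topDualPairing ℝ E f x| ≤ ‖f‖ * ‖x‖ :=
    fun f x => f.le_opNorm x
  have b2 : ∀ (x : E) (f : StrongDual ℝ E), |(topDualPairing ℝ E).flip x f| ≤ ‖x‖ * ‖f‖ :=
    fun x f => mul_comm ‖f‖ ‖x‖ ▸ b1 f x
  have n1 : ∀ (f : StrongDual ℝ E) (γ : ℝ), 0 < γ →
      ∃ x : E, ‖x‖ ≤ 1 ∧ ‖f‖ - γ < topDualPairing ℝ E f x := fun f γ hγ => by
    obtain ⟨x, h1, h2⟩ := f.exists_lt_apply_of_lt_opNorm (r := ‖f‖ - γ) (by linarith)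
    rcases le_total 0 (f x) with h | h
    · exact ⟨x, h1.le, by rwa [Real.norm_of_nonneg h] at h2⟩
    · refine ⟨-x, by rw [norm_neg]; exact h1.le, ?_⟩
      rw [Real.norm_eq_abs, abs_of_nonpos h] at h2
      rwa [map_neg]
  have n2 : ∀ (x : E) (γ : ℝ), 0 < γ →
      ∃ f : StrongDual ℝ E, ‖f‖ ≤ 1 ∧ ‖x‖ - γ < (topDualPairing ℝ E).flip x f := fun x γ hγ => by
    obtain ⟨g, h1, h2⟩ := exists_dual_vector'' ℝ x
    exact ⟨g, h1, lt_of_lt_of_le (sub_lt_self _ hγ) (le_of_eq h2.symm)⟩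
  exact ⟨fun h => l2 b1 n1 (l3 b2 n2 (l1 b2 h)), fun h => l2 b2 n2 (l3 b1 n1 (l1 b1 h))⟩

end Pool.Agent.H.MP_6ac155
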