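import Mathlib

set_option autoImplicit false
open scoped RealInnerProductSpace

namespace Pool.Agent.H.MP_6ac155

variable {E V : Type*} [NormedAddCommGroup E] [NormedSpace ℝ E] [NormedAddCommGroup V]
  [InnerProductSpace ℝ V]

theorem ar {t η ε l n a b c d : ℝ} (ht : 0 < t) (ht1 : t ≤ 1 / 2) (hη : 0 < η)
    (hε : ε = t * η / 8) (hl : 0 < l) (hl1 : l < 1) (h1 : 1 + t - ε ≤ n) (h2 : n ≤ 1 + t)
    (h0 : 0 < n) (e1 : a - t * b = n * d) (hd : 1 - ε ≤ d) (hc : c ≤ -1 + ε) (hb : -1 ≤ b)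
    (ha : a ≤ 1) : 2 - η < a - ((1 - l) * b + l * c) := by
  have hε0 : 0 < ε := by rw [hε]; positivity
  have e2 : 1 + t - 3 * ε ≤ a - t * b := by
    have : n * (1 - ε) ≤ n * d := by gcongr
    nlinarith
  have e3 : b ≤ -1 + 3 * η / 8 := by
    by_contra h
    push Not at h
    nlinarith
  have e4 : 1 - 3 * ε ≤ a := by nlinarith
  have e5 : ε ≤ η / 16 := by nlinarith
  have h3 : (1 - l) * b ≤ (1 - l) * (-1 + 3 * η / 8) := by gcongr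
  have h4 : l * c ≤ l * (-1 + 3 * η / 8) := by gcongr; linarith
  linarith

theorem step (F : E →L[ℝ] V)
    (hL : ∀ (a : V) (x : E), ‖x‖ = 1 → ∀ δ ε : ℝ, 0 < δ → 0 < ε →
      ∃ y, ‖y‖ ≤ 1 ∧ ⟪a, F y⟫ < ⟪a, F x⟫ + δ ∧ 2 - ε < ‖x - y‖)
    {x : E} (hx : ‖x‖ = 1) {r γ l : ℝ} (hγ : 0 < γ) (hl : 0 < l) (hl1 : l < 1)
    (hP : ∀ η : ℝ, 0 < η → ∃ w, ‖w‖ ≤ 1 ∧ ‖F w - F x‖ ^ 2 ≤ r ∧ 2 - η < ‖x - w‖)
    (η : ℝ) (hη : 0 < η) : ∃ w, ‖w‖ ≤ 1 ∧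
      ‖F w - F x‖ ^ 2 ≤ (1 - l) * r + l * (2 * γ + 4 * ‖F‖ ^ 2 * l) ∧ 2 - η < ‖x - w‖ := by
  have hK := norm_nonneg F
  obtain ⟨t, ht, ht1, htγ⟩ : ∃ t : ℝ, 0 < t ∧ t ≤ 1 / 2 ∧ 4 * ‖F‖ ^ 2 * t ≤ γ / 2 := by
    refine ⟨min (1 / 2) (γ / 2 / (4 * ‖F‖ ^ 2 + 1)), by positivity, min_le_left _ _, ?_⟩
    have h1 := min_le_right (1 / 2 : ℝ) (γ / 2 / (4 * ‖F‖ ^ 2 + 1))
    rw [le_div_iff₀ (by positivity)] at h1
    have : 0 < min (1 / 2 : ℝ) (γ / 2 / (4 * ‖F‖ ^ 2 + 1)) := by positivity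
    nlinarith
  set ε := t * η / 8 with hε
  have hε0 : 0 < ε := by positivity
  obtain ⟨w, hw, hwr, hwx⟩ := hP ε hε0
  set u := x - t • w with hu
  have htw : ‖t • w‖ ≤ t := by
    rw [norm_smul, Real.norm_of_nonneg ht.le]
    nlinarith
  have hu1 : 1 + t - ε ≤ ‖u‖ := by
    have e : x - w = u - (1 - t) • w := by rw [hu, sub_smul, one_smul]; abel
    have h1 := norm_sub_le u ((1 - t) • w)
    rw [← e, norm_smul, Real.norm_of_nonneg (by linarith)] at h1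
    nlinarith
  have hu2 : ‖u‖ ≤ 1 + t := by linarith [norm_sub_le x (t • w)]
  have hu3 : 1 - t ≤ ‖u‖ := by
    have := norm_sub_norm_le x (t • w)
    linarith
  have hu0 : 0 < ‖u‖ := by linarith
  set x' := ‖u‖⁻¹ • u with hx'
  have hx1 : ‖x'‖ = 1 := by
    rw [hx', norm_smul, norm_inv, norm_norm, inv_mul_cancel₀ hu0.ne']
  have hux : u = ‖u‖ • x' := by rw [hx', smul_smul, mul_inv_cancel₀ hu0.ne', one_smul]
  have hxx : ‖x' - x‖ ≤ 2 * t := by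
    have e : x' - x = (1 - ‖u‖) • x' - t • w := by
      rw [sub_smul, one_smul, ← hux, hu]; abel
    have h1 := norm_sub_le ((1 - ‖u‖) • x') (t • w)
    rw [← e, norm_smul, hx1, mul_one, Real.norm_eq_abs] at h1
    have : |1 - ‖u‖| ≤ t := abs_le.2 ⟨by linarith, by linarith⟩
    linarith
  obtain ⟨y, hy, hya, hyx⟩ := hL (F w - F x) x' hx1 (γ / 2) ε (by positivity) hε0
  have hn : ∀ z : E, ‖z‖ ≤ 1 → ‖F z - F x‖ ≤ 2 * ‖F‖ := fun z hz => by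
    rw [← map_sub]
    have h1 := F.le_opNorm (z - x)
    have h2 := norm_sub_le z x
    nlinarith
  have hab : ⟪F w - F x, F y - F x⟫ ≤ γ := by
    have h1 : ⟪F w - F x, F x' - F x⟫ ≤ 2 * ‖F‖ * (‖F‖ * (2 * t)) := by
      refine (real_inner_le_norm _ _).trans (mul_le_mul (hn w hw) ?_ (norm_nonneg _)
        (by positivity))
      rw [← map_sub]
      exact (F.le_opNorm _).trans (by gcongr)
    rw [inner_sub_right] at h1 ⊢
    nlinarith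
  refine ⟨(1 - l) • w + l • y, ?_, ?_, ?_⟩
  · refine (norm_add_le _ _).trans ?_
    rw [norm_smul, norm_smul, Real.norm_of_nonneg (by linarith), Real.norm_of_nonneg hl.le]
    nlinarith
  · have e : F ((1 - l) • w + l • y) - F x = (1 - l) • (F w - F x) + l • (F y - F x) := by
      rw [map_add, map_smul, map_smul]
      module
    rw [e, norm_add_sq_real, norm_smul, norm_smul, real_inner_smul_left, real_inner_smul_right,
      Real.norm_of_nonneg (by linarith : 0 ≤ 1 - l), Real.norm_of_nonneg hl.le, mul_pow, mul_pow]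
    have h1 : ‖F y - F x‖ ^ 2 ≤ 4 * ‖F‖ ^ 2 := by nlinarith [hn y hy, norm_nonneg (F y - F x)]
    have h2 : (1 - l) ^ 2 * ‖F w - F x‖ ^ 2 ≤ (1 - l) * r := by
      have : (1 - l) ^ 2 ≤ 1 - l := by nlinarith
      nlinarith [sq_nonneg ‖F w - F x‖]
    have h3 : (1 - l) * (l * ⟪F w - F x, F y - F x⟫) ≤ l * γ := by
      have : (1 - l) * (l * ⟪F w - F x, F y - F x⟫) ≤ (1 - l) * (l * γ) := by gcongr
      nlinarith [mul_pos hl hγ]
    nlinarith [sq_nonneg l]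
  · obtain ⟨g, hg, hg1⟩ := exists_dual_vector'' ℝ (x' - y)
    have hb : ∀ z : E, ‖z‖ ≤ 1 → |g z| ≤ 1 := fun z hz => by
      have := g.le_opNorm z
      rw [Real.norm_eq_abs] at this
      nlinarith [norm_nonneg g, norm_nonneg z]
    have b1 := abs_le.1 (hb x' hx1.le)
    have b2 := abs_le.1 (hb y hy)
    have b3 := abs_le.1 (hb w hw)
    have b4 := abs_le.1 (hb x hx.le)
    simp only [map_sub, RCLike.ofReal_real_eq_id, id] at hg1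
    have e1 : g x - t * g w = ‖u‖ * g x' := by
      have := congrArg g hux
      rw [map_smul, smul_eq_mul] at this
      rw [← this, hu, map_sub, map_smul, smul_eq_mul]
    have h1 := g.le_opNorm (x - ((1 - l) • w + l • y))
    have h2 := le_abs_self (g (x - ((1 - l) • w + l • y)))
    rw [Real.norm_eq_abs] at h1
    have h3 := mul_le_of_le_one_left (norm_nonneg (x - ((1 - l) • w + l • y))) hg
    refine lt_of_lt_of_le ?_ (h2.trans (h1.trans h3))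
    simp only [map_sub, map_add, map_smul, smul_eq_mul]
    exact ar ht ht1 hη hε hl hl1 hu1 hu2 hu0 e1 (by linarith) (by linarith) b3.1 b4.2

theorem main (F : E →L[ℝ] V)
    (hL : ∀ (a : V) (x : E), ‖x‖ = 1 → ∀ δ ε : ℝ, 0 < δ → 0 < ε →
      ∃ y, ‖y‖ ≤ 1 ∧ ⟪a, F y⟫ < ⟪a, F x⟫ + δ ∧ 2 - ε < ‖x - y‖)
    {x : E} (hx : ‖x‖ = 1) {δ : ℝ} (hδ : 0 < δ) (η : ℝ) (hη : 0 < η) :
    ∃ w, ‖w‖ ≤ 1 ∧ ‖F w - F x‖ < δ ∧ 2 - η < ‖x - w‖ := by
  have hK := norm_nonneg F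
  obtain ⟨l, hl, hl1, hlδ⟩ : ∃ l : ℝ, 0 < l ∧ l < 1 ∧ 4 * ‖F‖ ^ 2 * l ≤ δ ^ 2 / 4 := by
    refine ⟨min (1 / 2) (δ ^ 2 / 4 / (4 * ‖F‖ ^ 2 + 1)), by positivity,
      (min_le_left _ _).trans_lt (by norm_num), ?_⟩
    have h1 := min_le_right (1 / 2 : ℝ) (δ ^ 2 / 4 / (4 * ‖F‖ ^ 2 + 1))
    rw [le_div_iff₀ (by positivity)] at h1
    have : 0 < min (1 / 2 : ℝ) (δ ^ 2 / 4 / (4 * ‖F‖ ^ 2 + 1)) := by positivity
    nlinarith
  set s := 2 * (δ ^ 2 / 8) + 4 * ‖F‖ ^ 2 * l with hs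
  have hs0 : 0 ≤ s := by positivity
  have key : ∀ n : ℕ, ∀ η : ℝ, 0 < η → ∃ w, ‖w‖ ≤ 1 ∧
      ‖F w - F x‖ ^ 2 ≤ s + (1 - l) ^ n * (4 * ‖F‖ ^ 2 + 1) ∧ 2 - η < ‖x - w‖ := by
    intro n
    induction n with
    | zero =>
      intro η hη
      refine ⟨-x, by simp [hx], ?_, ?_⟩
      · have h1 := F.le_opNorm x
        have h2 := norm_sub_le (F (-x)) (F x)
        rw [map_neg, norm_neg] at h2
        rw [hx, mul_one] at h1
        rw [map_neg]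
        nlinarith [norm_nonneg (-F x - F x)]
      · rw [sub_neg_eq_add, ← two_smul ℝ x, norm_smul, hx]
        simp [hη]
    | succ n ih =>
      intro η hη
      obtain ⟨w, h1, h2, h3⟩ := step F hL hx (by positivity : 0 < δ ^ 2 / 8) hl hl1 ih η hη
      refine ⟨w, h1, h2.trans (le_of_eq ?_), h3⟩
      rw [← hs]
      ring
  obtain ⟨n, hn⟩ := exists_pow_lt_of_lt_one
    (by positivity : 0 < δ ^ 2 / 4 / (4 * ‖F‖ ^ 2 + 1)) (by linarith : 1 - l < 1)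
  rw [lt_div_iff₀ (by positivity)] at hn
  obtain ⟨w, h1, h2, h3⟩ := key n η hη
  refine ⟨w, h1, lt_of_pow_lt_pow_left₀ 2 hδ.le ?_, h3⟩
  nlinarith [sq_pos_of_pos hδ]

theorem fin (Z : Submodule ℝ (E →L[ℝ] ℝ))
    (hL : ∀ f ∈ Z, ∀ x : E, ‖x‖ = 1 → ∀ δ ε : ℝ, 0 < δ → 0 < ε →
      ∃ y, ‖y‖ ≤ 1 ∧ f x - δ < f y ∧ 2 - ε < ‖x - y‖)
    {ι : Type*} [Fintype ι] (g : ι → E →L[ℝ] ℝ) (hg : ∀ i, g i ∈ Z)
    {x : E} (hx : ‖x‖ = 1) {δ : ℝ} (hδ : 0 < δ) (η : ℝ) (hη : 0 < η) :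
    ∃ w, ‖w‖ ≤ 1 ∧ (∀ i, |g i (w - x)| < δ) ∧ 2 - η < ‖x - w‖ := by
  let F : E →L[ℝ] EuclideanSpace ℝ ι :=
    (PiLp.continuousLinearEquiv 2 ℝ fun _ : ι => ℝ).symm.toContinuousLinearMap.comp
      (ContinuousLinearMap.pi g)
  have hF : ∀ z i, F z i = g i z := fun z i => rfl
  obtain ⟨w, h1, h2, h3⟩ := main F (fun a x hx δ ε hδ hε => by
    obtain ⟨y, g1, g2, g3⟩ := hL (-∑ i, a i • g i)
      (Z.neg_mem (Z.sum_mem fun i _ => Z.smul_mem _ (hg i))) x hx δ ε hδ hε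
    refine ⟨y, g1, ?_, g3⟩
    have e : ∀ z, ⟪a, F z⟫ = ∑ i, a i * g i z := fun z => by
      simp only [PiLp.inner_apply, hF, RCLike.inner_apply, conj_trivial, mul_comm]
    simp only [_root_.neg_apply, _root_.sum_apply,
      _root_.smul_apply, smul_eq_mul] at g2
    rw [e, e]
    linarith) hx hδ η hη
  refine ⟨w, h1, fun i => lt_of_le_of_lt ?_ h2, h3⟩
  have := PiLp.norm_apply_le (F w - F x) i
  rw [← map_sub, hF, Real.norm_eq_abs] at this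
  rwa [← map_sub]

end Pool.Agent.H.MP_6ac155
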